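import Pool.Agent.Lib.IW.All
import Pool.Agent.Lib.IW.Triv

/-! Inertia groups lift through solvable normal subgroups; the Inertia Conjecture for solvable
groups is the case `M = G` (theorem `solvable` below). -/

namespace Pool.Agent.Results.MP_ba4752_ag.InertiaLifting

open Pool.Agent.Lib.IW

theorem result (p : ℕ) [Fact p.Prime] (k : Type) [Field k] [IsAlgClosed k] [CharP k p]
    (K : Type) [Field K] [Algebra k K] [Algebra.EssFiniteType k K] (hK : Algebra.trdeg k K = 1)
    (ξ : ValuationSubring K) (hξ : ξ ≠ ⊤) (hk : ∀ c : k, algebraMap k K c ∈ ξ)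
    (G : Type) [Group G] [Finite G] (H P : Subgroup G) (hPH : P ≤ H) [(P.subgroupOf H).Normal]
    (hP : IsPGroup p P) (hc : IsCyclic (H ⧸ P.subgroupOf H))
    (hgen : Subgroup.normalClosure (P : Set G) = ⊤)
    (M : Subgroup G) [M.Normal] (hM : Group.IsSolvable M)
    (hl : ∀ l : ℕ, l.Prime → l ≠ p → l ∣ (⁅M, (⊤ : Subgroup G)⁆).relIndex M → ¬ l ∣ Nat.card H)
    (ω : ValuationSubring (RatFunc k)) (hω : RatFunc.X ∉ ω)
    (hωk : ∀ c : k, algebraMap k (RatFunc k) c ∈ ω)
    (hocc : Occurs k ω (G ⧸ M) (H.map (QuotientGroup.mk' M))) : Occurs k ξ G H :=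
  lifting_of lift (blockBr1 found) (blockBr2 found) p k K hK ξ hξ hk G H P hPH hP hc hgen M hM hl
    ω hω hωk hocc

/-- The case `M = G` of `result`: no hypothesis on a quotient is left. -/
theorem solvable (p : ℕ) [Fact p.Prime] (k : Type) [Field k] [IsAlgClosed k] [CharP k p]
    (K : Type) [Field K] [Algebra k K] [Algebra.EssFiniteType k K] (hK : Algebra.trdeg k K = 1)
    (ξ : ValuationSubring K) (hξ : ξ ≠ ⊤) (hk : ∀ c : k, algebraMap k K c ∈ ξ)
    (G : Type) [Group G] [Finite G] (hG : Group.IsSolvable G) (H P : Subgroup G) (hPH : P ≤ H)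
    [(P.subgroupOf H).Normal] (hP : IsPGroup p P) (hc : IsCyclic (H ⧸ P.subgroupOf H))
    (hgen : Subgroup.normalClosure (P : Set G) = ⊤) : Occurs k ξ G H := by
  obtain ⟨ω, hω, hωk⟩ := exists_inf k
  have : Subsingleton (G ⧸ (⊤ : Subgroup G)) := QuotientGroup.subsingleton_quotient_top
  exact result p k K hK ξ hξ hk G H P hPH hP hc hgen ⊤ inferInstance
    (fun l hl hlp h => absurd h (not_dvd_ab hP hgen hl hlp)) ω hω hωk (occurs_trivial k ω _ _)

end Pool.Agent.Results.MP_ba4752_ag.InertiaLifting
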