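import Pool.Agent.Lib.MP_ba4752_ag.Main

/-! Inertia groups of `SL(2, F)`- and `PSL(2, F)`-covers of curves in defining characteristic. -/

open scoped MatrixGroups

namespace Pool.Agent.Results.MP_ba4752_ag.SL2Inertia

universe u

theorem result (p : ℕ) [Fact p.Prime] (k : Type*) [Field k] [IsAlgClosed k] [CharP k p]
    (K : Type u) [Field K] [Algebra k K] [Algebra.EssFiniteType k K] (hK : Algebra.trdeg k K = 1)
    (ξ : ValuationSubring K) (hξ : ξ ≠ ⊤) (hk : ∀ c : k, algebraMap k K c ∈ ξ)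
    (F : Type*) [Field F] [Finite F] [CharP F p] (G : Type*) [Group G] (π : SL(2, F) →* G)
    (hπ : Function.Surjective π) (hker : π.ker ≤ Subgroup.center SL(2, F)) (H P : Subgroup G)
    (hPH : P ≤ H) (hn : (P.subgroupOf H).Normal) (hP : IsPGroup p P) (h3 : 3 ≤ Nat.card P)
    (h9 : Nat.card F = 9 → Nat.card P ≠ 3) :
    ∃ (L : Type u) (_ : Field L) (_ : Algebra K L) (_ : FiniteDimensional K L) (_ : IsGalois K L)
      (e : (L ≃ₐ[K] L) ≃* G),
      (∀ η : ValuationSubring L, η ≠ ⊤ → (∀ c : k, algebraMap K L (algebraMap k K c) ∈ η) →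
        η.comap (algebraMap K L) ≠ ξ → η.decompositionSubgroup K = ⊥) ∧
      ∃ η : ValuationSubring L, η.comap (algebraMap K L) = ξ ∧
        (η.decompositionSubgroup K).map e.toMonoidHom = H :=
  Pool.Agent.Lib.MP_ba4752_ag.main p k K hK ξ hξ hk F G π hπ hker H P hPH hn hP h3 h9

end Pool.Agent.Results.MP_ba4752_ag.SL2Inertia
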