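import Pool.Agent.Lib.IW.Nec

/-! The inertia groups at infinity of Galois covers of the affine line with solvable group. -/

namespace Pool.Agent.Results.MP_ba4752_ag.SolvableClassification

open Pool.Agent.Lib.IW

theorem result (p : ℕ) [Fact p.Prime] (k : Type) [Field k] [IsAlgClosed k] [CharP k p]
    (ω : ValuationSubring (RatFunc k)) (hω : RatFunc.X ∉ ω)
    (hωk : ∀ c : k, algebraMap k (RatFunc k) c ∈ ω) (G : Type) [Group G] [Finite G]
    (hG : Group.IsSolvable G) (H : Subgroup G) :
    Occurs k ω G H ↔ ∃ P : Subgroup G, P ≤ H ∧ IsPGroup p P ∧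
      (∃ _ : (P.subgroupOf H).Normal, IsCyclic (H ⧸ P.subgroupOf H)) ∧
      Subgroup.normalClosure (P : Set G) = ⊤ :=
  solvable_iff p k ω hω hωk G hG H

end Pool.Agent.Results.MP_ba4752_ag.SolvableClassification
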