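import Pool.Agent.Lib.IW2.All

/-! The inertia groups of Galois covers of curves with at least two punctures. -/

namespace Pool.Agent.Results.MP_ba4752_ag.TwoPunctures

open Pool.Agent.Lib.IW2

theorem result (p : ℕ) [Fact p.Prime] (k : Type) [Field k] [IsAlgClosed k] [CharP k p]
    (K : Type) [Field K] [Algebra k K] [Algebra.EssFiniteType k K] (hK : Algebra.trdeg k K = 1)
    (S : Set (ValuationSubring K)) (ξ ξ' : ValuationSubring K) (hξ : ξ ≠ ⊤) (hξ' : ξ' ≠ ⊤)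
    (hk : ∀ c : k, algebraMap k K c ∈ ξ) (hk' : ∀ c : k, algebraMap k K c ∈ ξ') (hS : ξ ∈ S)
    (hS' : ξ' ∈ S) (hne : ξ ≠ ξ') (G : Type) [Group G] [Finite G] (H : Subgroup G) :
    OccursOn k S ξ G H ↔ (∃ P : Subgroup G, P ≤ H ∧ IsPGroup p P ∧
      ∃ _ : (P.subgroupOf H).Normal, IsCyclic (H ⧸ P.subgroupOf H)) ∧
      OccursOn k S ξ (G ⧸ pPart p G) (H.map (QuotientGroup.mk' (pPart p G))) :=
  final_of mainThm blockBR p k K hK S ξ ξ' hξ hξ' hk hk' hS hS' hne G H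

/-- Consequence: on every curve, every `p`-by-cyclic subgroup that maps onto the maximal quotient
of order prime to `p` occurs (for a quasi-`p` group: every `p`-by-cyclic subgroup). -/
theorem cyclic_quotient (p : ℕ) [Fact p.Prime] (k : Type) [Field k] [IsAlgClosed k] [CharP k p]
    (K : Type) [Field K] [Algebra k K] [Algebra.EssFiniteType k K] (hK : Algebra.trdeg k K = 1)
    (S : Set (ValuationSubring K)) (ξ ξ' : ValuationSubring K) (hξ : ξ ≠ ⊤) (hξ' : ξ' ≠ ⊤)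
    (hk : ∀ c : k, algebraMap k K c ∈ ξ) (hk' : ∀ c : k, algebraMap k K c ∈ ξ') (hS : ξ ∈ S)
    (hS' : ξ' ∈ S) (hne : ξ ≠ ξ') (G : Type) [Group G] [Finite G] (H : Subgroup G)
    (h : ∃ P : Subgroup G, P ≤ H ∧ IsPGroup p P ∧
      ∃ _ : (P.subgroupOf H).Normal, IsCyclic (H ⧸ P.subgroupOf H)) (ht : H ⊔ pPart p G = ⊤) :
    OccursOn k S ξ G H :=
  final_cyc mainThm blockBR solv blockGp3 p k K hK S ξ ξ' hξ hξ' hk hk' hS hS' hne G H h ht

/-- Consequence: the explicit answer for the projective line minus two points. -/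
theorem line_minus_two (p : ℕ) [Fact p.Prime] (k : Type) [Field k] [IsAlgClosed k] [CharP k p]
    (K : Type) [Field K] [Algebra k K] [Algebra.EssFiniteType k K] (hK : Algebra.trdeg k K = 1)
    (x : K) (hx : IntermediateField.adjoin k {x} = ⊤) (ξ ξ' : ValuationSubring K) (hξ : ξ ≠ ⊤)
    (hξ' : ξ' ≠ ⊤) (hk : ∀ c : k, algebraMap k K c ∈ ξ) (hk' : ∀ c : k, algebraMap k K c ∈ ξ')
    (hne : ξ ≠ ξ') (G : Type) [Group G] [Finite G] (H : Subgroup G) :
    OccursOn k {ξ, ξ'} ξ G H ↔ (∃ P : Subgroup G, P ≤ H ∧ IsPGroup p P ∧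
      ∃ _ : (P.subgroupOf H).Normal, IsCyclic (H ⧸ P.subgroupOf H)) ∧ H ⊔ pPart p G = ⊤ :=
  ⟨fun h => ⟨((result p k K hK _ ξ ξ' hξ hξ' hk hk' (by simp) (by simp) hne G H).1 h).1,
    final_gm mainThm blockBR blockGp3 p k K hK ξ ξ' hξ hξ' hk hk' hne x hx G H h⟩, fun h =>
      cyclic_quotient p k K hK _ ξ ξ' hξ hξ' hk hk' (by simp) (by simp) hne G H h.1 h.2⟩

end Pool.Agent.Results.MP_ba4752_ag.TwoPunctures
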